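import Pool.Agent.H71.GW.Targets

/-!
# Lattice Golomb-Welch, classes 0 and 1: assembly
-/

set_option autoImplicit false

open Finset
open scoped Classical

namespace Pool.Agent.H20.GWB

open Pool.Agent.H71.GW

theorem fin (h_GRP : T_GRP) (h_ASM : T_ASM) (h_HOR : T_HOR) (h_NUM : T_NUM) (h_UNI : T_UNI) :
    Main01 := by
  intro ι _ G _ s ev hPC hs
  set m : ℕ := Fintype.card ι with hm
  constructor
  · intro hdvd
    by_contra hlt
    push Not at hlt
    have hmul : s * (s + 2) = s * s + 2 * s := by ring
    have hsys : Nonempty (Sys ι s 0) := by
      refine h_GRP ι G s 0 ev hPC (by omega) (by omega) ?_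
      rw [Nat.add_zero]; exact hdvd
    have hss : 8 * s ≤ s * s := Nat.mul_le_mul_right s hs
    have hbig : s * (s + 2) < 2 * m := by
      split_ifs at hlt with h8 h9
      · subst h8; omega
      · subst h9; omega
      · exact hlt
    have hsm : s + 2 ≤ m := by omega
    by_cases h80 : s < 80
    · obtain ⟨EW, k, hg, hl, hh⟩ := h_NUM.1 s hs h80
      have hpos := (h_ASM ι s (by omega) hsm EW 5 k (by norm_num)).1 hsys
      have hneg : eva m (TT s (s + 1) 0 EW 5 k) (s + 2) < 0 := by
        refine h_HOR _ (s + 2) _ hg (by omega) ?_ hh m ?_
        · split_ifs with h8 h9 h10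
          · omega
          · omega
          · omega
          · omega
        · split_ifs with h8 h9 h10
          · subst h8
            simp only [if_true] at hlt
            omega
          · subst h9
            norm_num at hlt
            omega
          · subst h10
            norm_num at hlt
            omega
          · rw [if_neg h8, if_neg h9] at hlt
            omega
      exact absurd hneg (not_lt.2 hpos)
    · obtain ⟨EW, E0, k, hE, hn, _⟩ := h_UNI s (by omega) m hbig.le
      have hpos := (h_ASM ι s (by omega) hsm EW E0 k hE).1 hsys
      exact absurd hn (not_lt.2 hpos)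
  · intro hdvd hs10
    by_contra hlt
    push Not at hlt
    have hmul : s * (s + 2) = s * s + 2 * s := by ring
    have hsys : Nonempty (Sys ι s 1) := h_GRP ι G s 1 ev hPC (by omega) (by omega) hdvd
    have hss : 10 * s ≤ s * s := Nat.mul_le_mul_right s hs10
    have hbig : s * (s + 2) ≤ 2 * m := by
      split_ifs at hlt with h10
      · subst h10; omega
      · exact hlt
    have hsm : s + 2 ≤ m := by omega
    have heven : Even s := by
      obtain ⟨c, hc⟩ := Nat.dvd_of_mod_eq_zero hdvd
      by_contra hodd
      rw [Nat.not_even_iff_odd] at hodd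
      obtain ⟨d, hd⟩ := hodd
      have : (s + 1) * c = 2 * ((d + 1) * c) := by rw [hd]; ring
      omega
    by_cases h80 : s < 80
    · obtain ⟨EW, k, hg, hl, hh⟩ := h_NUM.2 s hs10 h80 heven
      have hpos := (h_ASM ι s (by omega) hsm EW 5 k (by norm_num)).2 hsys
      have hneg : eva m (TT s (s - 1) 1 EW 5 k) (s + 1) < 0 := by
        refine h_HOR _ (s + 1) _ hg (by omega) ?_ hh m ?_
        · split_ifs with h10
          · omega
          · omega
        · split_ifs with h10
          · subst h10
            simp only [if_true] at hlt
            omega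
          · omega
      exact absurd hneg (not_lt.2 hpos)
    · obtain ⟨EW, E0, k, hE, _, hn⟩ := h_UNI s (by omega) m hbig
      have hpos := (h_ASM ι s (by omega) hsm EW E0 k hE).2 hsys
      exact absurd hn (not_lt.2 hpos)

end Pool.Agent.H20.GWB
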